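import Pool.Agent.J4H78.HG.Stm

/-!
# Project HG, piece PHL: `Ph μ` is a Lipschitz function of compact support

`ph |r| e^(i m log |r|) = g m (log (max |r| (1/e)))` with `g m s = max 0 (1 - |s|) e^(i m s)`, which is Lipschitz
with the constant `1 + |m|`.
-/

set_option autoImplicit false

open Complex Filter Topology MeasureTheory

namespace Pool.Agent.J4H58.HG

open Pool.Agent.J4H78.HG

theorem exp_neg_one_ge : (1 : ℝ) / 3 ≤ Real.exp (-1) := by
  rw [Real.exp_neg, one_div]
  exact inv_anti₀ (Real.exp_pos 1) (by have := Real.exp_one_lt_d9; linarith)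

/-- cut-off absolute value -/
noncomputable def ab (r : ℝ) : ℝ := max |r| (Real.exp (-1))

theorem ab_pos (r : ℝ) : 0 < ab r := lt_max_of_lt_right (Real.exp_pos _)

theorem ab_sub (x y : ℝ) : |ab x - ab y| ≤ |x - y| :=
  (abs_max_sub_max_le_abs _ _ _).trans (abs_abs_sub_abs_le x y)

theorem log_ab_sub (x y : ℝ) : |Real.log (ab x) - Real.log (ab y)| ≤ 3 * |x - y| := by
  have key : ∀ x y : ℝ, ab y ≤ ab x → |Real.log (ab x) - Real.log (ab y)| ≤ 3 * |x - y| := by
    intro x y h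
    have hy := ab_pos y
    have hx := ab_pos x
    have h1 : 0 ≤ Real.log (ab x) - Real.log (ab y) := sub_nonneg.2 (Real.log_le_log hy h)
    rw [abs_of_nonneg h1, ← Real.log_div hx.ne' hy.ne']
    have h2 := Real.log_le_sub_one_of_pos (div_pos hx hy)
    have h3 : ab x / ab y - 1 = (ab x - ab y) / ab y := by field_simp
    have h4 : (1 : ℝ) / 3 ≤ ab y := exp_neg_one_ge.trans (le_max_right _ _)
    have h5 := ab_sub x y
    rw [h3] at h2
    refine h2.trans ?_
    rw [div_le_iff₀ hy]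
    have h6 := le_abs_self (ab x - ab y)
    nlinarith [mul_nonneg (abs_nonneg (x - y)) (sub_nonneg.2 h4)]
  rcases le_total (ab y) (ab x) with h | h
  · exact key x y h
  · rw [abs_sub_comm, abs_sub_comm x y]
    exact key y x h

/-- the tent times the oscillation, in the logarithmic variable -/
noncomputable def g (m s : ℝ) : ℂ :=
  ((max 0 (1 - |s|) : ℝ) : ℂ) * Complex.exp (((m * s : ℝ) : ℂ) * I)

theorem norm_osc (a : ℝ) : ‖Complex.exp ((a : ℂ) * I)‖ = 1 := Complex.norm_exp_ofReal_mul_I a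

theorem osc_sub (a b : ℝ) : ‖Complex.exp ((a : ℂ) * I) - Complex.exp ((b : ℂ) * I)‖ ≤ |a - b| := by
  have h : Complex.exp ((a : ℂ) * I) - Complex.exp ((b : ℂ) * I) =
      Complex.exp ((b : ℂ) * I) * (Complex.exp (I * ((a - b : ℝ) : ℂ)) - 1) := by
    rw [mul_sub, mul_one, ← Complex.exp_add]
    congr 2
    push_cast
    ring
  rw [h, norm_mul, norm_osc, one_mul]
  exact Real.norm_exp_I_mul_ofReal_sub_one_le

theorem tent_nonneg (s : ℝ) : 0 ≤ max 0 (1 - |s|) := le_max_left _ _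

theorem tent_le (s : ℝ) : max 0 (1 - |s|) ≤ 1 := max_le zero_le_one (by linarith [abs_nonneg s])

theorem tent_sub (s t : ℝ) : |max 0 (1 - |s|) - max 0 (1 - |t|)| ≤ |s - t| := by
  refine (abs_max_sub_max_le_max _ _ _ _).trans ?_
  rw [sub_self, abs_zero, max_eq_right (abs_nonneg _)]
  have : 1 - |s| - (1 - |t|) = |t| - |s| := by ring
  rw [this, abs_sub_comm]
  exact abs_abs_sub_abs_le s t

theorem g_norm (m s : ℝ) : ‖g m s‖ ≤ 1 := by
  rw [g, norm_mul, norm_osc, mul_one, Complex.norm_real, Real.norm_of_nonneg (tent_nonneg s)]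
  exact tent_le s

theorem g_lip (m s t : ℝ) : ‖g m s - g m t‖ ≤ (1 + |m|) * |s - t| := by
  have h : g m s - g m t =
      ((max 0 (1 - |s|) - max 0 (1 - |t|) : ℝ) : ℂ) * Complex.exp (((m * s : ℝ) : ℂ) * I) +
        ((max 0 (1 - |t|) : ℝ) : ℂ) *
          (Complex.exp (((m * s : ℝ) : ℂ) * I) - Complex.exp (((m * t : ℝ) : ℂ) * I)) := by
    unfold g
    rw [Complex.ofReal_sub]
    ring
  rw [h]
  refine (norm_add_le _ _).trans ?_
  rw [norm_mul, norm_mul, norm_osc, mul_one, Complex.norm_real, Complex.norm_real,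
    Real.norm_of_nonneg (tent_nonneg t), Real.norm_eq_abs]
  have h1 := tent_sub s t
  have h2 := osc_sub (m * s) (m * t)
  have h3 : |m * s - m * t| = |m| * |s - t| := by rw [← mul_sub, abs_mul]
  rw [h3] at h2
  have h4 := mul_le_mul (tent_le t) h2 (norm_nonneg _) zero_le_one
  rw [one_mul] at h4
  linarith

theorem log_ab_of_le {r : ℝ} (h : |r| ≤ Real.exp (-1)) : Real.log (ab r) = -1 := by
  rw [ab, max_eq_right h, Real.log_exp]

theorem f_eq (m r : ℝ) : ((ph |r| : ℝ) : ℂ) * Complex.exp (((m * Real.log |r| : ℝ) : ℂ) * I) =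
    g m (Real.log (ab r)) := by
  rcases le_or_gt |r| (Real.exp (-1)) with h | h
  · have h0 : ph |r| = 0 := by
      unfold ph
      split_ifs with h1
      · have h2 : Real.log |r| ≤ -1 := by
          have := Real.log_le_log h1 h
          rwa [Real.log_exp] at this
        rw [max_eq_left]
        have := neg_abs_le (Real.log |r|)
        linarith
      · rfl
    rw [h0, log_ab_of_le h, g]
    simp
  · have h1 : 0 < |r| := (Real.exp_pos _).trans h
    rw [ab, max_eq_left h.le, g, ph, if_pos h1]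

theorem prod_sub {ι : Type} (s : Finset ι) (a b : ι → ℂ) (ha : ∀ i, ‖a i‖ ≤ 1) (hb : ∀ i, ‖b i‖ ≤ 1) :
    ‖∏ i ∈ s, a i - ∏ i ∈ s, b i‖ ≤ ∑ i ∈ s, ‖a i - b i‖ := by
  classical
  induction s using Finset.induction_on with
  | empty => simp
  | insert i s hi ih =>
    rw [Finset.prod_insert hi, Finset.prod_insert hi, Finset.sum_insert hi]
    have h : a i * ∏ j ∈ s, a j - b i * ∏ j ∈ s, b j =
        (a i - b i) * ∏ j ∈ s, a j + b i * (∏ j ∈ s, a j - ∏ j ∈ s, b j) := by ring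
    rw [h]
    refine (norm_add_le _ _).trans ?_
    rw [norm_mul, norm_mul]
    have h1 : ‖∏ j ∈ s, a j‖ ≤ 1 := by
      rw [norm_prod]
      exact Finset.prod_le_one (fun j _ => norm_nonneg _) fun j _ => ha j
    have h2 : ‖a i - b i‖ * ‖∏ j ∈ s, a j‖ ≤ ‖a i - b i‖ := mul_le_of_le_one_right (norm_nonneg _) h1
    have h3 : ‖b i‖ * ‖∏ j ∈ s, a j - ∏ j ∈ s, b j‖ ≤ ‖∏ j ∈ s, a j - ∏ j ∈ s, b j‖ :=
      mul_le_of_le_one_left (norm_nonneg _) (hb i)
    linarith

theorem Ph_eq {ι : Type} [Fintype ι] (μ x : ι → ℝ) : Ph μ x = ∏ w, g (μ w) (Real.log (ab (x w))) :=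
  Finset.prod_congr rfl fun w _ => f_eq (μ w) (x w)

theorem Ph_norm {ι : Type} [Fintype ι] (μ x : ι → ℝ) : ‖Ph μ x‖ ≤ 1 := by
  rw [Ph_eq, norm_prod]
  exact Finset.prod_le_one (fun j _ => norm_nonneg _) fun j _ => g_norm _ _

theorem Ph_lip {ι : Type} [Fintype ι] (hι : Fintype.card ι = 4) (μ x y : ι → ℝ) :
    ‖Ph μ x - Ph μ y‖ ≤ 12 * (1 + ∑ w, |μ w|) * ‖x - y‖ := by
  rw [Ph_eq, Ph_eq]
  refine (prod_sub _ _ _ (fun i => g_norm _ _) fun i => g_norm _ _).trans ?_
  have h : ∀ i ∈ Finset.univ, ‖g (μ i) (Real.log (ab (x i))) - g (μ i) (Real.log (ab (y i)))‖ ≤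
      (1 + |μ i|) * (3 * ‖x - y‖) := by
    intro i _
    refine (g_lip _ _ _).trans (mul_le_mul_of_nonneg_left ?_ (by positivity))
    refine (log_ab_sub _ _).trans (mul_le_mul_of_nonneg_left ?_ (by norm_num))
    have := norm_le_pi_norm (x - y) i
    rwa [Pi.sub_apply, Real.norm_eq_abs] at this
  refine (Finset.sum_le_sum h).trans ?_
  rw [← Finset.sum_mul, Finset.sum_add_distrib, Finset.sum_const, Finset.card_univ, hι]
  have h1 : 0 ≤ ∑ w, |μ w| := Finset.sum_nonneg fun w _ => abs_nonneg _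
  simp only [nsmul_eq_mul, Nat.cast_ofNat, mul_one]
  nlinarith [mul_nonneg h1 (norm_nonneg (x - y)), norm_nonneg (x - y)]

theorem one_lt_log {r : ℝ} (h : 3 < r) : 1 < Real.log r := by
  rw [Real.lt_log_iff_exp_lt (by linarith)]
  have := Real.exp_one_lt_d9
  linarith

theorem ph_zero {r : ℝ} (h : 3 < |r|) : ph |r| = 0 := by
  have h1 := one_lt_log h
  unfold ph
  split_ifs
  · rw [max_eq_left]
    have := le_abs_self (Real.log |r|)
    linarith
  · rfl

theorem Ph_zero {ι : Type} [Fintype ι] (μ x : ι → ℝ) (h : 3 < ‖x‖) : Ph μ x = 0 := by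
  have h1 : ∃ w, 3 < |x w| := by
    by_contra hc
    push Not at hc
    have := (pi_norm_le_iff_of_nonneg (by norm_num : (0 : ℝ) ≤ 3)).2 fun i => by
      rw [Real.norm_eq_abs]; exact hc i
    linarith
  obtain ⟨w, hw⟩ := h1
  exact Finset.prod_eq_zero (Finset.mem_univ w) (by rw [ph_zero hw]; simp)

theorem kap_norm {ι : Type} [Fintype ι] (hι : Fintype.card ι = 4) (μ : ι → ℝ) : ‖kap μ‖ ≤ 1296 := by
  have h1 : kap μ = ∫ r in Metric.closedBall (0 : ι → ℝ) 3, Ph μ r := by
    rw [kap, ← integral_indicator Metric.isClosed_closedBall.measurableSet]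
    refine integral_congr_ae (Filter.Eventually.of_forall fun x => ?_)
    by_cases hx : x ∈ Metric.closedBall (0 : ι → ℝ) 3
    · rw [Set.indicator_of_mem hx]
    · rw [Set.indicator_of_notMem hx]
      refine Ph_zero μ x ?_
      rw [mem_closedBall_zero_iff, not_le] at hx
      exact hx
  have hv : volume (Metric.closedBall (0 : ι → ℝ) 3) = ENNReal.ofReal 1296 := by
    rw [Real.volume_pi_closedBall _ (by norm_num), hι]
    norm_num
  have h2 := norm_setIntegral_le_of_norm_le_const (μ := volume) (s := Metric.closedBall (0 : ι → ℝ) 3)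
    (f := Ph μ) (C := 1) (by rw [hv]; exact ENNReal.ofReal_lt_top) fun x _ => Ph_norm μ x
  rw [h1]
  refine h2.trans ?_
  rw [Measure.real, hv, ENNReal.toReal_ofReal (by norm_num), one_mul]

/-- the tent of the absolute value -/
theorem ph_abs (r : ℝ) : ph |r| = max 0 (1 - |Real.log (ab r)|) := by
  have h := f_eq 0 r
  simp only [g, zero_mul, Complex.ofReal_zero, Complex.exp_zero, mul_one] at h
  exact_mod_cast h

theorem ph_cont : Continuous fun r : ℝ => ph |r| := by
  simp only [ph_abs]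
  have h1 : Continuous ab := continuous_abs.max continuous_const
  exact continuous_const.max (continuous_const.sub (h1.log fun r => (ab_pos r).ne').abs)

theorem ph_int : Integrable fun r : ℝ => ph |r| := by
  refine ph_cont.integrable_of_hasCompactSupport ?_
  refine HasCompactSupport.intro (isCompact_Icc (a := (-3 : ℝ)) (b := 3)) fun r hr => ?_
  refine ph_zero ?_
  rw [Set.mem_Icc, ← abs_le, not_le] at hr
  exact hr

theorem ph_nonneg (r : ℝ) : 0 ≤ ph r := by
  unfold ph
  split_ifs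
  · exact le_max_left _ _
  · exact le_rfl

theorem ph_integral : (1 : ℝ) / 4 ≤ ∫ r : ℝ, ph |r| := by
  have h1 : ∫ r in Set.Icc (1 : ℝ) (3 / 2), ph |r| ≤ ∫ r : ℝ, ph |r| :=
    setIntegral_le_integral ph_int (Filter.Eventually.of_forall fun r => ph_nonneg _)
  have h2 : ∫ _r in Set.Icc (1 : ℝ) (3 / 2), (1 / 2 : ℝ) ≤ ∫ r in Set.Icc (1 : ℝ) (3 / 2), ph |r| := by
    refine setIntegral_mono_on (integrableOn_const (by simp) ) ph_int.integrableOn measurableSet_Icc ?_
    intro r hr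
    have h0 : 0 < r := by linarith [hr.1]
    rw [abs_of_pos h0, ph, if_pos h0]
    refine le_max_of_le_right ?_
    have h3 : 0 ≤ Real.log r := Real.log_nonneg hr.1
    have h4 := Real.log_le_sub_one_of_pos h0
    rw [abs_of_nonneg h3]
    linarith [hr.2]
  have h3 : ∫ _r in Set.Icc (1 : ℝ) (3 / 2), (1 / 2 : ℝ) = 1 / 4 := by
    rw [setIntegral_const, Measure.real, Real.volume_Icc]
    norm_num
  linarith

theorem kap_zero {ι : Type} [Fintype ι] :
    kap (fun _ : ι => (0 : ℝ)) = (((∫ r : ℝ, ph |r|) ^ Fintype.card ι : ℝ) : ℂ) := by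
  have h1 : ∀ x : ι → ℝ, Ph (fun _ : ι => (0 : ℝ)) x = ((∏ w, ph |x w| : ℝ) : ℂ) := by
    intro x
    rw [Ph, Complex.ofReal_prod]
    refine Finset.prod_congr rfl fun w _ => ?_
    simp
  have h2 := integral_fintype_prod_volume_eq_prod (ι := ι) (𝕜 := ℝ) (E := fun _ => ℝ)
    (fun _ r => ph |r|)
  rw [kap]
  simp only [h1]
  rw [integral_complex_ofReal, h2]
  simp

theorem t_PHL : S_PHL := by
  refine ⟨1296, by norm_num, fun ι _ hι μ => ⟨fun x y => ?_, Ph_norm μ, Ph_zero μ, kap_norm hι μ, ?_, ?_⟩⟩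
  · refine (Ph_lip hι μ x y).trans ?_
    have h1 : 0 ≤ ∑ w, |μ w| := Finset.sum_nonneg fun w _ => abs_nonneg _
    gcongr
    norm_num
  · rw [kap_zero, Complex.ofReal_re, hι]
    have h := pow_le_pow_left₀ (by norm_num) ph_integral 4
    have h2 : ((1 : ℝ) / 4) ^ 4 = 1 / 256 := by norm_num
    rw [h2] at h
    linarith
  · rw [kap_zero, Complex.ofReal_im]

end Pool.Agent.J4H58.HG
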